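import Pool.Agent.Ramanujan.Block

/-!
# Every finite connected graph, loops allowed, has a one-sided Ramanujan `r`-covering

Full (positive) answer to Q1 of `MP_eaea0b_co`.

Definitions are in `Pool/Agent/Ramanujan/Defs.lean`.

Idea of the proof (with `d = r - 1`, `std` the standard representation of `S_r` on `ℝ^d`).
* The new spectrum is the spectrum of the sum over the edges of the matrices of the permutations in
  `std`.  The non-loop edges get independent uniform permutations, a loop gets a uniformly random
  conjugate of an `r`-cycle `c`.  All these are conjugations by uniformly random permutations acting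
  on one fibre, and a uniform permutation is a product of independent random swaps.
* Interlacing: a class of functions `Φ` of symmetric matrices (monic, real rooted, affine and
  monotone along rank one perturbations) contains the characteristic polynomial of the sum and is
  stable under random swaps; this gives an actual covering all of whose new eigenvalues are `< x₀`
  as soon as the expected characteristic polynomial is positive on `[x₀, ∞)`.
* On `std`, the matrix `2 - c - c⁻¹` is the Laplacian of the cycle, hence it dominates (up to a
  rank one matrix) the Laplacian of the path with `r` vertices, and this one is orthogonally similar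
  to `2 - A(P_d)`, with `A(P_d)` the adjacency matrix of the path on `d` vertices.
* Quadrature: for every real matrices `Y, B` the average of `det (Y + U B Uᵀ)` over `U` in `S_r`
  equals the average over the signed permutation matrices and is invariant under the orthogonal
  group of the fibre.  So `c + c⁻¹` may be replaced by `A(P_d)` and `S_r` by signed permutations.
* The average over signs is a matching polynomial (Godsil-Gutman) of a graph which is locally
  embedded in `G`, and it is positive for `x > ρ(G)` by a comparison with the continued fractions
  attached to the oriented edges of `G`, which are positive since `x - A` is positive on `ℓ²` of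
  the universal covering tree.
-/

set_option autoImplicit false

open Matrix Equiv Polynomial
open Pool.Agent.Ramanujan

namespace Pool.Agent.Results.MP_eaea0b_co.OneSidedRamanujan

/-- A check of the definitions: for every covering, the spectrum of the covering is the spectrum of
`G` plus the new spectrum (as multisets), and the new spectrum consists of `(r - 1) |V|` real
numbers. -/
theorem spectrum_cover {V E : Type} [Fintype V] [DecidableEq V] [Fintype E] (G : MGraph V E)
    (r : ℕ) (hr : 1 ≤ r) (σ : E → Perm (Fin r)) :
    (G.coverAdj σ).charpoly.roots = G.adj.charpoly.roots + G.newSpectrum σ ∧
      Multiset.card (G.newSpectrum σ) = (r - 1) * Fintype.card V := by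
  classical
  obtain ⟨d, rfl⟩ : ∃ d, r = d + 1 := ⟨r - 1, by omega⟩
  obtain ⟨Q, hQ⟩ := exists_std d
  have hσ : σ = fun e => ((σ e)⁻¹)⁻¹ := by funext e; simp
  have h1 : (G.coverAdj σ).charpoly = G.adj.charpoly * (newPart G Q fun e => (σ e)⁻¹).charpoly := by
    conv_lhs => rw [hσ]
    exact charpoly_cover G hQ fun e => (σ e)⁻¹
  have h2 : G.newSpectrum σ = (newPart G Q fun e => (σ e)⁻¹).charpoly.roots := by
    conv_lhs => rw [hσ]
    exact newSpectrum_eq G hQ fun e => (σ e)⁻¹
  refine ⟨?_, ?_⟩
  · rw [h2, h1, roots_mul]
    exact mul_ne_zero (charpoly_monic _).ne_zero (charpoly_monic _).ne_zero
  · have hs : (newPart G Q fun e => (σ e)⁻¹).IsHermitian := by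
      rw [Matrix.IsHermitian, conjTranspose_eq_transpose_of_trivial, newPart, transpose_sum]
      apply Finset.sum_congr rfl
      intro e _
      rw [transpose_add, E_transpose, E_transpose, transpose_transpose, add_comm]
    rw [h2, hs.roots_charpoly_eq_eigenvalues]
    simp only [Multiset.card_map, Finset.card_val, Finset.card_univ, Fintype.card_prod,
      Fintype.card_fin]
    rw [Nat.add_sub_cancel, mul_comm]

/-- Every finite connected graph `G`, multiple edges and loops allowed, has for every `r ≥ 2` an
`r`-covering whose new eigenvalues are all at most `ρ(G)`, the spectral radius of the adjacency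
operator of the universal covering tree of `G`. -/
theorem result {V E : Type} [Fintype V] [DecidableEq V] [Fintype E] (G : MGraph V E)
    (hconn : G.Connected) (v₀ : V) (r : ℕ) (hr : 2 ≤ r) :
    ∃ σ : E → Perm (Fin r), ∀ x ∈ G.newSpectrum σ, x ≤ G.rho v₀ := by
  classical
  exact exists_ramanujan_cover hconn v₀ r (by omega)

end Pool.Agent.Results.MP_eaea0b_co.OneSidedRamanujan
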